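import Mathlib
import Pool.Agent.Lib.Pf32e1d.Main

/-!
Problem MP_f32e1d_an, Q1 (negative answer).  For the Riesz spaces `E = C(X, ℝ)` and
`F = C(K, ℝ)`, with `K = ℤ_[2]` and `X = ℤ_[2] × (ℕ → ℤ_[2])` compact metrizable, there are
orthogonally additive `S, T : E → F` whose join exists in `𝒪(E, F)` although
`sup {S u + T v : x = u ⊔ v}` does not exist in `F` for some `x`.
-/

namespace Pool.Agent.Results.MP_f32e1d_an.NoPointwiseSup

/-- `𝒪(E, F)`: the orthogonally additive maps `E → F`, i.e. the maps `T` with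
`T (x + y) = T x + T y` whenever `|x| ⊓ |y| = 0`. -/
def OrthAdd (E F : Type*) [Lattice E] [AddCommGroup E] [AddCommGroup F] : Type _ :=
  {T : E → F // ∀ x y : E, |x| ⊓ |y| = 0 → T (x + y) = T x + T y}

/-- The pointwise order on `𝒪(E, F)`. -/
instance (E F : Type*) [Lattice E] [AddCommGroup E] [AddCommGroup F] [PartialOrder F] :
    PartialOrder (OrthAdd E F) where
  le S T := ∀ x : E, S.1 x ≤ T.1 x
  le_refl S x := le_refl _
  le_trans S T U h₁ h₂ x := (h₁ x).trans (h₂ x)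
  le_antisymm S T h₁ h₂ := Subtype.ext (funext fun x => le_antisymm (h₁ x) (h₂ x))

/-- The set `{S u + T v : x = u + v, u ⊥ v}`. -/
def splitValues {E F : Type*} [Lattice E] [AddCommGroup E] [AddCommGroup F]
    (S T : OrthAdd E F) (x : E) : Set F :=
  {y | ∃ u v : E, |u| ⊓ |v| = 0 ∧ u + v = x ∧ y = S.1 u + T.1 v}

/-- **Result.**  There are orthogonally additive maps `S, T : E → F` between the Riesz spaces
`E = C(ℤ_[2] × (ℕ → ℤ_[2]), ℝ)` and `F = C(ℤ_[2], ℝ)` that have a least upper bound in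
`𝒪(E, F)`, and an `x : E` such that `{S u + T v : x = u + v, u ⊥ v}` has no least upper bound
in `F`. -/
theorem result :
    ∃ S T : OrthAdd C(ℤ_[2] × (ℕ → ℤ_[2]), ℝ) C(ℤ_[2], ℝ),
      (∃ R, IsLUB {S, T} R) ∧ ∃ x, ¬ ∃ s, IsLUB (splitValues S T x) s := by
  refine ⟨⟨fun x => -Pool.Agent.Lib.Pf32e1d.V0 x, ?_⟩, ⟨fun x => -Pool.Agent.Lib.Pf32e1d.V1 x, ?_⟩,
    ⟨⟨fun _ => 0, ?_⟩, ?_, ?_⟩, Pool.Agent.Lib.Pf32e1d.x0, ?_⟩
  · intro x y h
    have e := Pool.Agent.Lib.Pf32e1d.V0_add h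
    simp only [e, neg_add]
  · intro x y h
    have e := Pool.Agent.Lib.Pf32e1d.V1_add h
    simp only [e, neg_add]
  · intro x y _
    rw [add_zero]
  · rintro Z (rfl | rfl)
    · intro x
      exact neg_nonpos.mpr (Pool.Agent.Lib.Pf32e1d.V0_nonneg x)
    · intro x
      exact neg_nonpos.mpr (Pool.Agent.Lib.Pf32e1d.V1_nonneg x)
  · intro U hU x
    have h0 := hU (Set.mem_insert _ _)
    have h1 := hU (Set.mem_insert_of_mem _ rfl)
    exact Pool.Agent.Lib.Pf32e1d.U_nonneg U.2 h0 h1 x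
  · exact Pool.Agent.Lib.Pf32e1d.no_sup

end Pool.Agent.Results.MP_f32e1d_an.NoPointwiseSup
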